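import Mathlib
import Pool.Agent.Lib.MP_86beeb_co.Main

set_option autoImplicit false

namespace Pool.Agent.Results.MP_86beeb_co.AllDistinct

/-- `G` is a `(-1, 1, t)`-threshold graph. -/
def IsThreshold (t : ℝ) {n : ℕ} (G : SimpleGraph (Fin n)) : Prop :=
  ∃ r : Fin n → ℝ, ∀ v w : Fin n, v ≠ w →
    (G.Adj v w ↔ ((-1 ≤ r v + r w ∧ r v + r w < 1) ∨ t ≤ r v + r w))

theorem result : ∀ t t' : ℝ, 1 < t → 1 < t' → t ≠ t' →
    ∃ (n : ℕ) (G : SimpleGraph (Fin n)), IsThreshold t G ∧ ¬ IsThreshold t' G := by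
  intro t t' ht ht' hne
  obtain ⟨V, _, ρ, h⟩ := Pool.Agent.Lib.MP_86beeb_co.exists_separating t t' ht ht' hne
  let e := Fintype.equivFin V
  let G : SimpleGraph (Fin (Fintype.card V)) :=
    { Adj := fun v w => v ≠ w ∧ Pool.Agent.Lib.MP_86beeb_co.Ed t (ρ (e.symm v) + ρ (e.symm w))
      symm := ⟨fun v w hh => ⟨hh.1.symm, by rw [add_comm]; exact hh.2⟩⟩
      loopless := ⟨fun v hh => hh.1 rfl⟩ }
  refine ⟨Fintype.card V, G, ⟨fun v => ρ (e.symm v), fun v w hvw => ?_⟩, ?_⟩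
  · exact ⟨fun hh => hh.2, fun hh => ⟨hvw, hh⟩⟩
  · rintro ⟨r, hr⟩
    refine h (fun v => r (e v)) (fun v w hvw => ?_)
    have hvw' : e v ≠ e w := fun hh => hvw (e.injective hh)
    have := hr (e v) (e w) hvw'
    refine Iff.trans this.symm ?_
    simp [G, hvw]

end Pool.Agent.Results.MP_86beeb_co.AllDistinct
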